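import Mathlib

/-!
All roots of the clique polynomial of an `l`-connected chordal `K_{l+3}`-free graph are real.
-/

namespace Pool.Agent.Results.MP_77abd0_co.CliqueRoots

open Finset

variable {V : Type*}

/-- `G` is chordal: every cycle `c 0, …, c (k - 1)` of length `k ≥ 4` in `G` has a chord, an edge
joining two vertices of the cycle that are not consecutive on it. -/
def IsChordal (G : SimpleGraph V) : Prop :=
  ∀ k : ℕ, 4 ≤ k → ∀ c : ZMod k → V, Function.Injective c → (∀ i, G.Adj (c i) (c (i + 1))) →
    ∃ i j, j ≠ i + 1 ∧ i ≠ j + 1 ∧ G.Adj (c i) (c j)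

/-- `G` is `l`-connected: it has at least `l + 1` vertices and stays connected after deleting any
set of fewer than `l` vertices. -/
def IsLConnected (l : ℕ) (G : SimpleGraph V) [Fintype V] : Prop :=
  l + 1 ≤ Fintype.card V ∧ ∀ S : Finset V, S.card < l → (G.induce {v | v ∉ S}).Connected

open Classical in
/-- The clique polynomial `∑ c_k x ^ k`, where `c_k` is the number of `k`-cliques. -/
noncomputable def cliquePoly (G : SimpleGraph V) [Fintype V] : Polynomial ℤ :=
  ∑ k ∈ range (Fintype.card V + 1),
    Polynomial.C (((univ.filter (fun S : Finset V => G.IsNClique k S)).card : ℕ) : ℤ) *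
      Polynomial.X ^ k

section dirac

/-- The subgraph of `G` with all edges inside `S`. -/
def R (G : SimpleGraph V) (S : Set V) : SimpleGraph V where
  Adj u v := G.Adj u v ∧ u ∈ S ∧ v ∈ S
  symm := by
    constructor
    rintro u v ⟨h1, h2, h3⟩
    exact ⟨h1.symm, h3, h2⟩
  loopless := by
    constructor
    rintro u ⟨h1, _⟩
    exact G.loopless.irrefl _ h1

theorem R_mono (G : SimpleGraph V) {S T : Set V} (h : S ⊆ T) : R G S ≤ R G T := by
  intro u v huv
  exact ⟨huv.1, h huv.2.1, h huv.2.2⟩

/-- An induced path between two vertices in the same component. -/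
theorem exists_induced_path (H : SimpleGraph V) {y z : V} (h : H.Reachable y z) :
    ∃ (m : ℕ) (x : ℕ → V), x 0 = y ∧ x m = z ∧ (∀ i < m, H.Adj (x i) (x (i + 1))) ∧
      (∀ i j, i ≤ m → j ≤ m → H.Adj (x i) (x j) → j ≤ i + 1) ∧
      (∀ i j, i ≤ m → j ≤ m → x i = x j → i = j) := by
  obtain ⟨p, hp⟩ := h.exists_walk_length_eq_dist
  have hadj : ∀ i < p.length, H.Adj (p.getVert i) (p.getVert (i + 1)) :=
    fun i hi => p.adj_getVert_succ hi
  have hr : ∀ i, i ≤ p.length → H.Reachable y (p.getVert i) := by
    intro i
    induction i with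
    | zero => intro _; rw [p.getVert_zero]
    | succ i ih =>
      intro hi
      exact (ih (by omega)).trans (hadj i (by omega)).reachable
  have d1 : ∀ i, i ≤ p.length → H.dist y (p.getVert i) ≤ i := by
    intro i
    induction i with
    | zero => intro _; rw [p.getVert_zero]; simp
    | succ i ih =>
      intro hi
      have h1 := ih (by omega)
      obtain ⟨q, hq⟩ := (hr i (by omega)).exists_walk_length_eq_dist
      have h2 := SimpleGraph.dist_le (q.concat (hadj i (by omega)))
      rw [SimpleGraph.Walk.length_concat] at h2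
      omega
  have d2 : ∀ k, ∀ i, i ≤ p.length → p.length - i = k → ∃ q : H.Walk (p.getVert i) z, q.length ≤ k := by
    intro k
    induction k with
    | zero =>
      intro i hi hk
      have : i = p.length := by omega
      subst this
      rw [p.getVert_length]
      exact ⟨SimpleGraph.Walk.nil, le_rfl⟩
    | succ k ih =>
      intro i hi hk
      obtain ⟨q, hq⟩ := ih (i + 1) (by omega) (by omega)
      exact ⟨SimpleGraph.Walk.cons (hadj i (by omega)) q, by simp; omega⟩
  have d3 : ∀ i, i ≤ p.length → H.dist y (p.getVert i) = i := by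
    intro i hi
    refine le_antisymm (d1 i hi) ?_
    obtain ⟨q, hq⟩ := d2 _ i hi rfl
    obtain ⟨q', hq'⟩ := (hr i hi).exists_walk_length_eq_dist
    have := SimpleGraph.dist_le (q'.append q)
    rw [SimpleGraph.Walk.length_append] at this
    omega
  refine ⟨p.length, p.getVert, p.getVert_zero, p.getVert_length, hadj, ?_, ?_⟩
  · intro i j hi hj hij
    have h1 := d3 i hi
    have h2 := d3 j hj
    obtain ⟨q, hq⟩ := (hr i hi).exists_walk_length_eq_dist
    have := SimpleGraph.dist_le (q.concat hij)
    rw [SimpleGraph.Walk.length_concat] at this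
    omega
  · intro i j hi hj hij
    rw [← d3 i hi, ← d3 j hj, hij]

/-- In a chordal graph there is no induced cycle through a path and an outside vertex. -/
theorem no_cycle (G : SimpleGraph V) (hG : IsChordal G) (m : ℕ) (hm : 2 ≤ m) (x : ℕ → V) (b : V)
    (hadj : ∀ i < m, G.Adj (x i) (x (i + 1)))
    (hind : ∀ i j, i ≤ m → j ≤ m → G.Adj (x i) (x j) → j ≤ i + 1)
    (hinj : ∀ i j, i ≤ m → j ≤ m → x i = x j → i = j)
    (hb0 : G.Adj b (x 0)) (hbm : G.Adj b (x m)) (hb : ∀ i, 0 < i → i < m → ¬ G.Adj b (x i))
    (hbx : ∀ i, i ≤ m → b ≠ x i) : False := by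
  have hk : 4 ≤ m + 2 := by omega
  let c : ZMod (m + 2) → V := fun i => if i.val ≤ m then x i.val else b
  have hv : ∀ i : ZMod (m + 2), i.val ≤ m + 1 := by
    intro i
    have := ZMod.val_lt i
    omega
  have hsucc : ∀ i : ZMod (m + 2), i.val ≤ m → (i + 1).val = i.val + 1 := by
    intro i hi
    rw [ZMod.val_add, ZMod.val_one'' (by omega), Nat.mod_eq_of_lt (by omega)]
  have hlast : ∀ i : ZMod (m + 2), ¬ i.val ≤ m → (i + 1).val = 0 := by
    intro i hi
    have h1 := hv i
    have h2 : i.val = m + 1 := by omega
    rw [ZMod.val_add, ZMod.val_one'' (by omega), h2]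
    simp
  have hc1 : ∀ i : ZMod (m + 2), i.val ≤ m → c i = x i.val := fun i hi => by simp only [c, hi, if_true]
  have hc2 : ∀ i : ZMod (m + 2), ¬ i.val ≤ m → c i = b := fun i hi => by simp only [c, hi, if_false]
  have hcinj : Function.Injective c := by
    intro i j hij
    by_cases hi : i.val ≤ m <;> by_cases hj : j.val ≤ m
    · rw [hc1 i hi, hc1 j hj] at hij
      exact ZMod.val_injective _ (hinj _ _ hi hj hij)
    · rw [hc1 i hi, hc2 j hj] at hij
      exact absurd hij.symm (hbx _ hi)
    · rw [hc2 i hi, hc1 j hj] at hij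
      exact absurd hij (hbx _ hj)
    · apply ZMod.val_injective
      have := hv i
      have := hv j
      omega
  have hcadj : ∀ i, G.Adj (c i) (c (i + 1)) := by
    intro i
    by_cases hi : i.val ≤ m
    · by_cases hi2 : i.val < m
      · have h1 := hsucc i hi
        rw [hc1 i hi, hc1 (i + 1) (by omega), h1]
        exact hadj _ hi2
      · have h1 := hsucc i hi
        rw [hc1 i hi, hc2 (i + 1) (by omega)]
        have : i.val = m := by omega
        rw [this]; exact hbm.symm
    · have h1 := hlast i hi
      rw [hc2 i hi, hc1 (i + 1) (by omega), h1]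
      exact hb0
  obtain ⟨i, j, hij1, hij2, hij3⟩ := hG (m + 2) hk c hcinj hcadj
  have hij4 : ¬ (i.val ≤ m ∧ j.val = i.val + 1) := by
    rintro ⟨h1, h2⟩
    apply hij1
    apply ZMod.val_injective
    rw [hsucc i h1, h2]
  have hij5 : ¬ (j.val ≤ m ∧ i.val = j.val + 1) := by
    rintro ⟨h1, h2⟩
    apply hij2
    apply ZMod.val_injective
    rw [hsucc j h1, h2]
  have hij6 : ¬ (¬ i.val ≤ m ∧ j.val = 0) := by
    rintro ⟨h1, h2⟩
    apply hij1
    apply ZMod.val_injective
    rw [hlast i h1, h2]
  have hij7 : ¬ (¬ j.val ≤ m ∧ i.val = 0) := by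
    rintro ⟨h1, h2⟩
    apply hij2
    apply ZMod.val_injective
    rw [hlast j h1, h2]
  have hvi := hv i
  have hvj := hv j
  by_cases hi : i.val ≤ m <;> by_cases hj : j.val ≤ m
  · rw [hc1 i hi, hc1 j hj] at hij3
    have h1 := hind _ _ hi hj hij3
    have h2 := hind _ _ hj hi hij3.symm
    have h3 : i.val ≠ j.val := by
      intro e
      rw [e] at hij3
      exact hij3.ne rfl
    omega
  · rw [hc1 i hi, hc2 j hj] at hij3
    exact hb i.val (by omega) (by omega) hij3.symm
  · rw [hc2 i hi, hc1 j hj] at hij3
    exact hb j.val (by omega) (by omega) hij3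
  · rw [hc2 i hi, hc2 j hj] at hij3
    exact hij3.ne rfl

/-- `v` is simplicial in `U`. -/
def Simplicial (G : SimpleGraph V) (U : Finset V) (v : V) : Prop :=
  v ∈ U ∧ ∀ a ∈ U, ∀ b ∈ U, G.Adj v a → G.Adj v b → a ≠ b → G.Adj a b

/-- Dirac: every nonempty vertex set of a chordal graph has a simplicial vertex. -/
theorem exists_simplicial [DecidableEq V] (G : SimpleGraph V) (hG : IsChordal G) :
    ∀ (n : ℕ) (U : Finset V), U.card = n → U.Nonempty → ∃ v, Simplicial G U v := by
  classical
  intro n
  induction n using Nat.strong_induction_on with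
  | _ n ih =>
  intro U hUn hU
  by_cases hcl : ∀ a ∈ U, ∀ b ∈ U, a ≠ b → G.Adj a b
  · obtain ⟨v, hv⟩ := hU
    exact ⟨v, hv, fun a ha b hb _ _ hab => hcl a ha b hb hab⟩
  push Not at hcl
  obtain ⟨x, hx, y, hy, hxy, hnadj⟩ := hcl
  -- the family of connected sets that do not dominate `U`
  let Fam : Finset (Finset V) := U.powerset.filter (fun A => A.Nonempty ∧
    (∀ u ∈ A, ∀ v ∈ A, (R G A).Reachable u v) ∧ ∃ b ∈ U, b ∉ A ∧ ∀ a ∈ A, ¬ G.Adj a b)
  have hFam : Fam.Nonempty := by
    refine ⟨{x}, ?_⟩
    simp only [Fam, mem_filter, mem_powerset, singleton_subset_iff]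
    refine ⟨hx, singleton_nonempty x, ?_, y, hy, ?_, ?_⟩
    · intro u hu v hv
      rw [mem_singleton] at hu hv
      rw [hu, hv]
    · rw [mem_singleton]; exact hxy.symm
    · intro a ha
      rw [mem_singleton] at ha
      rw [ha]; exact hnadj
  obtain ⟨A, hA, hAmax⟩ := Finset.exists_max_image Fam Finset.card hFam
  simp only [Fam, mem_filter, mem_powerset] at hA
  obtain ⟨hAU, hAne, hAconn, b0, hb0U, hb0A, hb0⟩ := hA
  let B : Finset V := U.filter (fun b => b ∉ A ∧ ∀ a ∈ A, ¬ G.Adj a b)
  have hBne : B.Nonempty := ⟨b0, by simp only [B, mem_filter]; exact ⟨hb0U, hb0A, hb0⟩⟩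
  -- vertices of `U` outside `A` with a neighbour in `A` are adjacent to all of `B`
  have hNB : ∀ y ∈ U, y ∉ A → (∃ a ∈ A, G.Adj a y) → ∀ b ∈ B, G.Adj y b := by
    rintro y hyU hyA ⟨a, haA, hay⟩ b hb
    by_contra hyb
    simp only [B, mem_filter] at hb
    obtain ⟨hbU, hbA, hbadj⟩ := hb
    have hin : insert y A ∈ Fam := by
      simp only [Fam, mem_filter, mem_powerset]
      refine ⟨insert_subset hyU hAU, insert_nonempty _ _, ?_, b, hbU, ?_, ?_⟩
      · have hmono : R G (A : Set V) ≤ R G ((insert y A : Finset V) : Set V) :=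
          R_mono G (by simp)
        have hyr : ∀ v ∈ A, (R G ((insert y A : Finset V) : Set V)).Reachable y v := by
          intro v hv
          have e1 : (R G ((insert y A : Finset V) : Set V)).Adj y a :=
            ⟨hay.symm, by simp, by simp [haA]⟩
          exact e1.reachable.trans ((hAconn a haA v hv).mono hmono)
        intro u hu v hv
        rcases mem_insert.1 hu with hu' | hu' <;> rcases mem_insert.1 hv with hv' | hv'
        · rw [hu', hv']
        · rw [hu']; exact hyr v hv'
        · rw [hv']; exact (hyr u hu').symm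
        · exact (hAconn u hu' v hv').mono hmono
      · rw [mem_insert, not_or]
        refine ⟨?_, hbA⟩
        rintro rfl
        exact hbadj a haA hay
      · intro a' ha'
        rcases mem_insert.1 ha' with rfl | ha'
        · exact hyb
        · exact hbadj a' ha'
    have := hAmax _ hin
    rw [card_insert_of_notMem hyA] at this
    omega
  -- they form a clique
  have hNN : ∀ y ∈ U, y ∉ A → (∃ a ∈ A, G.Adj a y) → ∀ z ∈ U, z ∉ A → (∃ a ∈ A, G.Adj a z) →
      y ≠ z → G.Adj y z := by
    intro y hyU hyA hy z hzU hzA hz hyz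
    by_contra hnyz
    have hb0B : b0 ∈ B := by simp only [B, mem_filter]; exact ⟨hb0U, hb0A, hb0⟩
    have hyb := hNB y hyU hyA hy b0 hb0B
    have hzb := hNB z hzU hzA hz b0 hb0B
    obtain ⟨a, haA, hay⟩ := hy
    obtain ⟨a', ha'A, ha'z⟩ := hz
    let S : Set V := (A : Set V) ∪ {y, z}
    have hreach : (R G S).Reachable y z := by
      have e1 : (R G S).Adj y a := ⟨hay.symm, by simp [S], by simp [S, haA]⟩
      have e2 : (R G S).Adj a' z := ⟨ha'z, by simp [S, ha'A], by simp [S]⟩
      exact e1.reachable.trans (((hAconn a haA a' ha'A).mono (R_mono G Set.subset_union_left)).trans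
        e2.reachable)
    obtain ⟨m, x, hx0, hxm, hxadj, hxind, hxinj⟩ := exists_induced_path _ hreach
    have hm0 : m ≠ 0 := by
      rintro rfl
      exact hyz (hx0.symm.trans hxm)
    have hm1 : m ≠ 1 := by
      rintro rfl
      have := hxadj 0 (by omega)
      rw [hx0] at this
      rw [zero_add, hxm] at this
      exact hnyz this.1
    have hS : ∀ i ≤ m, x i ∈ S := by
      intro i hi
      by_cases h : i < m
      · exact (hxadj i h).2.1
      · have : i = m := by omega
        rw [this, hxm]; simp [S]
    have hmid : ∀ i, 0 < i → i < m → x i ∈ A := by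
      intro i h1 h2
      rcases hS i h2.le with h | h
      · exact h
      · rcases h with h | h
        · have := hxinj i 0 h2.le (by omega) (by rw [hx0]; exact h)
          omega
        · have := hxinj i m h2.le le_rfl (by rw [hxm]; exact h)
          omega
    refine no_cycle G hG m (by omega) x b0 (fun i hi => (hxadj i hi).1) ?_ hxinj ?_ ?_ ?_ ?_
    · intro i j hi hj hij
      exact hxind i j hi hj ⟨hij, hS i hi, hS j hj⟩
    · rw [hx0]; exact hyb.symm
    · rw [hxm]; exact hzb.symm
    · intro i h1 h2 h3
      exact hb0 _ (hmid i h1 h2) h3.symm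
    · intro i hi e
      rcases hS i hi with h | h
      · exact hb0A (e ▸ h)
      · rcases h with h | h
        · rw [← e] at h; subst h; exact hyb.ne rfl
        · rw [← e] at h; rw [h] at hzb; exact hzb.ne rfl
  -- a simplicial vertex of `B` is simplicial in `U`
  have hcard : B.card < n := by
    rw [← hUn]
    apply card_lt_card
    rw [Finset.ssubset_iff_of_subset (filter_subset _ _)]
    obtain ⟨a, ha⟩ := hAne
    refine ⟨a, hAU ha, ?_⟩
    simp only [B, mem_filter]
    rintro ⟨_, h, _⟩
    exact h ha
  obtain ⟨v, hvB, hv⟩ := ih _ hcard B rfl hBne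
  have hvB' := hvB
  simp only [B, mem_filter] at hvB'
  refine ⟨v, hvB'.1, ?_⟩
  have hcase : ∀ a ∈ U, G.Adj v a → a ∈ B ∨ (a ∉ A ∧ ∃ a' ∈ A, G.Adj a' a) := by
    intro a haU hva
    have haA : a ∉ A := fun h => hvB'.2.2 a h hva.symm
    by_cases h : ∃ a' ∈ A, G.Adj a' a
    · exact Or.inr ⟨haA, h⟩
    · left
      push Not at h
      simp only [B, mem_filter]
      exact ⟨haU, haA, h⟩
  intro a haU b hbU hva hvb hab
  rcases hcase a haU hva with ha | ⟨ha1, ha2⟩ <;> rcases hcase b hbU hvb with hb | ⟨hb1, hb2⟩
  · exact hv a ha b hb hva hvb hab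
  · exact (hNB b hbU hb1 hb2 a ha).symm
  · exact hNB a haU ha1 ha2 b hb
  · exact hNN a haU ha1 ha2 b hbU hb1 hb2 hab

/-- The clique generating function factors as `(1 + z) ^ l` times a quadratic. -/
theorem main_induction [DecidableEq V] (G : SimpleGraph V) [DecidableRel G.Adj]
    (hG : IsChordal G) (l : ℕ) (hl : 1 ≤ l) :
    ∀ (n : ℕ) (U : Finset V), U.card = n → l + 1 ≤ U.card →
      (∀ A B S : Finset V, A ∪ B ∪ S = U → Disjoint A B → Disjoint A S → Disjoint B S →
        A.Nonempty → B.Nonempty → (∀ a ∈ A, ∀ b ∈ B, ¬ G.Adj a b) → l ≤ S.card) →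
      (∀ S ⊆ U, G.IsClique (S : Set V) → S.card < l + 3) →
      ∃ a b : ℕ, ∀ z : ℂ, ∑ S ∈ U.powerset.filter (fun S : Finset V => G.IsClique (S : Set V)),
          z ^ S.card = (1 + z) ^ l * ((1 + z) + a * z + b * z * (1 + z)) := by
  intro n
  induction n with
  | zero => intro U hU h1; omega
  | succ n ih =>
  intro U hUn hUl hsep hfree
  by_cases hbase : U.card = l + 1
  · -- `U` is a clique
    have hcl : ∀ a ∈ U, ∀ b ∈ U, a ≠ b → G.Adj a b := by
      intro a ha b hb hab
      by_contra hnab
      have h1 := hsep {a} {b} ((U.erase a).erase b) ?_ ?_ ?_ ?_ (singleton_nonempty a)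
        (singleton_nonempty b) ?_
      · rw [card_erase_of_mem (mem_erase.2 ⟨hab.symm, hb⟩), card_erase_of_mem ha] at h1
        omega
      · ext x
        simp only [mem_union, mem_singleton, mem_erase]
        constructor
        · rintro ((rfl | rfl) | ⟨_, _, h⟩)
          · exact ha
          · exact hb
          · exact h
        · intro hx
          by_cases e1 : x = a
          · exact Or.inl (Or.inl e1)
          · by_cases e2 : x = b
            · exact Or.inl (Or.inr e2)
            · exact Or.inr ⟨e2, e1, hx⟩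
      · rw [disjoint_singleton]; exact hab
      · rw [disjoint_singleton_left]; simp
      · rw [disjoint_singleton_left]; simp
      · intro a' ha' b' hb'
        rw [mem_singleton] at ha' hb'
        rw [ha', hb']; exact hnab
    refine ⟨0, 0, ?_⟩
    intro z
    rw [filter_true_of_mem]
    · have := Finset.sum_pow_mul_eq_add_pow z 1 U
      simp only [one_pow, mul_one] at this
      rw [this, hbase]
      push_cast
      ring
    · intro S hS
      rw [mem_powerset] at hS
      intro a ha b hb hab
      exact hcl a (hS ha) b (hS hb) hab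
  have hUne : U.Nonempty := by rw [← card_pos]; omega
  obtain ⟨v, hvU, hv⟩ := exists_simplicial G hG _ U rfl hUne
  let N : Finset V := U.filter (fun w => G.Adj v w)
  have hvN : v ∉ N := by simp [N]
  have hNcl : ∀ S ⊆ N, G.IsClique ((insert v S : Finset V) : Set V) := by
    intro S hS a ha b hb hab
    simp only [coe_insert, Set.mem_insert_iff, mem_coe] at ha hb
    rcases ha with ha | ha <;> rcases hb with hb | hb
    · exact absurd (ha.trans hb.symm) hab
    · rw [ha]; exact (mem_filter.1 (hS hb)).2
    · rw [hb]; exact (mem_filter.1 (hS ha)).2.symm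
    · exact hv a (mem_filter.1 (hS ha)).1 b (mem_filter.1 (hS hb)).1 (mem_filter.1 (hS ha)).2
        (mem_filter.1 (hS hb)).2 hab
  have hNcard2 : N.card ≤ l + 1 := by
    have := hfree (insert v N) (insert_subset hvU (filter_subset _ _)) (hNcl N (Subset.refl _))
    rw [card_insert_of_notMem hvN] at this
    omega
  have hNcard1 : l ≤ N.card := by
    by_contra hlt
    push Not at hlt
    have hle : l ≤ N.card := by
      refine hsep {v} (U \ insert v N) N ?_ ?_ ?_ ?_ (singleton_nonempty v) ?_ ?_
      · ext x
        simp only [mem_union, mem_singleton, mem_sdiff, mem_insert]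
        constructor
        · rintro ((rfl | ⟨h, _⟩) | h)
          · exact hvU
          · exact h
          · exact (mem_filter.1 h).1
        · intro hx
          by_cases e1 : x = v
          · exact Or.inl (Or.inl e1)
          · by_cases e2 : x ∈ N
            · exact Or.inr e2
            · refine Or.inl (Or.inr ⟨hx, ?_⟩)
              rintro (h | h)
              · exact e1 h
              · exact e2 h
      · rw [disjoint_singleton_left]; simp
      · rw [disjoint_singleton_left]; exact hvN
      · rw [Finset.disjoint_left]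
        intro x hx hx2
        rw [mem_sdiff] at hx
        exact hx.2 (mem_insert_of_mem hx2)
      · rw [← card_pos]
        have h1 : (insert v N) ⊆ U := insert_subset hvU (filter_subset _ _)
        have h2 := card_sdiff_add_card_eq_card h1
        rw [card_insert_of_notMem hvN] at h2
        omega
      · intro a ha b hb hab
        rw [mem_singleton] at ha
        rw [mem_sdiff] at hb
        apply hb.2
        rw [ha] at hab
        exact mem_insert_of_mem (mem_filter.2 ⟨hb.1, hab⟩)
    omega
  have hU' : (U.erase v).card = n := by rw [card_erase_of_mem hvU]; omega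
  have hsep' : ∀ A B S : Finset V, A ∪ B ∪ S = U.erase v → Disjoint A B → Disjoint A S →
      Disjoint B S → A.Nonempty → B.Nonempty → (∀ a ∈ A, ∀ b ∈ B, ¬ G.Adj a b) →
      (∀ b ∈ B, b ∉ N) → l ≤ S.card := by
    intro A B S hABS hAB hAS hBS hA hB hno hBN
    have hvnot : v ∉ A ∪ B ∪ S := by rw [hABS]; simp
    simp only [mem_union, not_or] at hvnot
    refine hsep (insert v A) B S ?_ ?_ ?_ hBS (insert_nonempty _ _) hB ?_
    · rw [insert_union, insert_union, hABS, insert_erase hvU]
    · rw [disjoint_insert_left]; exact ⟨hvnot.1.2, hAB⟩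
    · rw [disjoint_insert_left]; exact ⟨hvnot.2, hAS⟩
    · intro a ha b hb hab
      rcases mem_insert.1 ha with ha | ha
      · rw [ha] at hab
        apply hBN b hb
        refine mem_filter.2 ⟨?_, hab⟩
        have : b ∈ A ∪ B ∪ S := by simp [hb]
        rw [hABS] at this
        exact mem_of_mem_erase this
      · exact hno a ha b hb hab
  obtain ⟨a, b, hab⟩ := ih (U.erase v) hU' (by omega) (by
    intro A B S hABS hAB hAS hBS hA hB hno
    by_cases hBN : ∀ b ∈ B, b ∉ N
    · exact hsep' A B S hABS hAB hAS hBS hA hB hno hBN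
    · push Not at hBN
      obtain ⟨b, hb, hbN⟩ := hBN
      refine hsep' B A S (by rw [union_comm B A]; exact hABS) hAB.symm hBS hAS hB hA
        (fun b hb a ha h => hno a ha b hb h.symm) ?_
      intro a ha haN
      have hab : a ≠ b := by
        rintro rfl
        exact (Finset.disjoint_left.1 hAB) ha hb
      exact hno a ha b hb (hv a (mem_filter.1 haN).1 b (mem_filter.1 hbN).1
        (mem_filter.1 haN).2 (mem_filter.1 hbN).2 hab)) (by
    intro S hS hcl
    exact hfree S (hS.trans (erase_subset _ _)) hcl)
  -- the recursion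
  have hrec : ∀ z : ℂ, ∑ S ∈ U.powerset.filter (fun S : Finset V => G.IsClique (S : Set V)),
      z ^ S.card = ∑ S ∈ (U.erase v).powerset.filter (fun S : Finset V => G.IsClique (S : Set V)),
      z ^ S.card + z * (1 + z) ^ N.card := by
    intro z
    have hsplit := Finset.sum_powerset_insert (notMem_erase v U)
      (fun S : Finset V => if G.IsClique (S : Set V) then z ^ S.card else 0)
    rw [insert_erase hvU] at hsplit
    rw [sum_filter, hsplit, sum_filter]
    congr 1
    have h1 : (U.erase v).powerset.filter
        (fun S : Finset V => G.IsClique ((insert v S : Finset V) : Set V)) = N.powerset := by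
      ext S
      simp only [mem_filter, mem_powerset]
      constructor
      · rintro ⟨h1, h2⟩ x hx
        have hxU := h1 hx
        refine mem_filter.2 ⟨mem_of_mem_erase hxU, ?_⟩
        have hxv : v ≠ x := fun e => (ne_of_mem_erase hxU) e.symm
        exact h2 (by simp) (by simp [hx]) hxv
      · intro h1
        refine ⟨?_, hNcl S h1⟩
        intro x hx
        refine mem_erase.2 ⟨?_, (mem_filter.1 (h1 hx)).1⟩
        rintro rfl
        exact hvN (h1 hx)
    have h2 := Finset.sum_pow_mul_eq_add_pow z 1 N
    simp only [one_pow, mul_one] at h2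
    rw [← sum_filter, h1, add_comm 1 z, ← h2, mul_sum]
    refine sum_congr rfl fun S hS => ?_
    rw [mem_powerset] at hS
    rw [card_insert_of_notMem (fun h => hvN (hS h))]
    ring
  have hNcases : N.card = l ∨ N.card = l + 1 := by omega
  rcases hNcases with hN | hN
  · refine ⟨a + 1, b, fun z => ?_⟩
    rw [hrec z, hab z, hN]
    push_cast
    ring
  · refine ⟨a, b + 1, fun z => ?_⟩
    rw [hrec z, hab z, hN]
    push_cast
    ring

end dirac

/-- The quadratic factor has only real roots. -/
theorem real_root (a b : ℕ) (z : ℂ) (h : (1 + z) + a * z + b * z * (1 + z) = 0) : z.im = 0 := by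
  by_contra hz
  have hre := congrArg Complex.re h
  have him := congrArg Complex.im h
  simp only [Complex.add_re, Complex.mul_re, Complex.one_re, Complex.natCast_re,
    Complex.natCast_im, Complex.add_im, Complex.mul_im, Complex.one_im, Complex.zero_re,
    Complex.zero_im] at hre him
  set x := z.re
  set y := z.im
  have ha : (0 : ℝ) ≤ a := Nat.cast_nonneg a
  have hb : (0 : ℝ) ≤ b := Nat.cast_nonneg b
  have h1 : y * (1 + a + b + 2 * b * x) = 0 := by linarith
  have h2 : 1 + (a : ℝ) + b + 2 * b * x = 0 := by
    rcases mul_eq_zero.1 h1 with h | h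
    · exact absurd h hz
    · exact h
  have h3 : 1 + x + a * x + b * x * (1 + x) - b * y * y = 0 := by linarith
  have hy : 0 < y * y := mul_self_pos.2 hz
  have hbpos : 0 < (b : ℝ) := by
    rcases hb.lt_or_eq with h | h
    · exact h
    · rw [← h] at h2; linarith
  -- `4 b * h3`: `4 b - (1 + a + b) ^ 2 - 4 b ^ 2 y ^ 2 = 0`
  have h4 : 4 * (b : ℝ) - (1 + a + b) ^ 2 - 4 * (b * b * (y * y)) = 0 := by
    have e : 2 * (b : ℝ) * x = -(1 + a + b) := by linarith
    have e2 : 4 * (b : ℝ) * (1 + x + a * x + b * x * (1 + x) - b * y * y) =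
        4 * b + 2 * (1 + a + b) * (2 * b * x) + (2 * b * x) ^ 2 - 4 * (b * b * (y * y)) := by ring
    rw [h3, e] at e2
    linarith
  have h5 : 0 < (b : ℝ) * b * (y * y) := by positivity
  nlinarith [sq_nonneg ((b : ℝ) - 1), mul_nonneg ha hb]

/-- Connectedness in terms of separations. -/
theorem sep_of_connected [Fintype V] [DecidableEq V] (G : SimpleGraph V) (l : ℕ)
    (h : IsLConnected l G) (A B S : Finset V) (hABS : A ∪ B ∪ S = univ) (hAB : Disjoint A B)
    (hAS : Disjoint A S) (hBS : Disjoint B S) (hA : A.Nonempty) (hB : B.Nonempty)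
    (hno : ∀ a ∈ A, ∀ b ∈ B, ¬ G.Adj a b) : l ≤ S.card := by
  by_contra hlt
  push Not at hlt
  have hconn := h.2 S hlt
  obtain ⟨a, ha⟩ := hA
  obtain ⟨b, hb⟩ := hB
  have haS : a ∉ S := Finset.disjoint_left.1 hAS ha
  have hbS : b ∉ S := Finset.disjoint_left.1 hBS hb
  obtain ⟨p⟩ := hconn.preconnected ⟨a, haS⟩ ⟨b, hbS⟩
  obtain ⟨d, _, hd1, hd2⟩ := p.exists_boundary_dart {x | x.1 ∈ A} ha
    (fun hb' => Finset.disjoint_left.1 hAB hb' hb)
  have hsnd : d.snd.1 ∈ B := by
    have h1 : d.snd.1 ∈ A ∪ B ∪ S := by rw [hABS]; exact mem_univ _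
    simp only [mem_union] at h1
    rcases h1 with (h1 | h1) | h1
    · exact absurd h1 hd2
    · exact h1
    · exact absurd h1 d.snd.2
  exact hno _ hd1 _ hsnd d.adj

/-- **Main theorem.** For every `l ≥ 1`, all complex roots of the clique polynomial of an
`l`-connected chordal `K_{l+3}`-free graph are real. -/
theorem result {V : Type*} [Fintype V] (G : SimpleGraph V) (l : ℕ) (hl : 1 ≤ l)
    (hconn : IsLConnected l G)
    (hchord : IsChordal G) (hfree : G.CliqueFree (l + 3)) (z : ℂ)
    (hz : Polynomial.aeval z (cliquePoly G) = 0) : z.im = 0 := by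
  classical
  obtain ⟨a, b, hab⟩ := main_induction G hchord l hl _ univ rfl (by rw [card_univ]; exact hconn.1)
    (sep_of_connected G l hconn) (by
      intro S _ hS
      by_contra hlt
      push Not at hlt
      obtain ⟨T, hT1, hT2⟩ := Finset.exists_subset_card_eq hlt
      exact hfree T ⟨hS.subset (by exact_mod_cast hT1), hT2⟩)
  have heval : Polynomial.aeval z (cliquePoly G) =
      ∑ S ∈ (univ : Finset V).powerset.filter (fun S : Finset V => G.IsClique (S : Set V)),
        z ^ S.card := by
    unfold cliquePoly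
    rw [map_sum]
    have h1 : ∀ S ∈ (univ : Finset V).powerset.filter (fun S : Finset V => G.IsClique (S : Set V)),
        S.card ∈ range (Fintype.card V + 1) := by
      intro S _
      rw [mem_range]
      have := Finset.card_le_univ S
      omega
    rw [← Finset.sum_fiberwise_of_maps_to h1]
    refine sum_congr rfl fun k _ => ?_
    rw [map_mul, map_pow, Polynomial.aeval_X, Polynomial.aeval_C]
    have h2 : ∀ S ∈ ((univ : Finset V).powerset.filter
        (fun S : Finset V => G.IsClique (S : Set V))).filter (fun S => S.card = k),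
        z ^ S.card = z ^ k := by
      intro S hS
      rw [(mem_filter.1 hS).2]
    rw [sum_congr rfl h2, sum_const, nsmul_eq_mul]
    congr 1
    rw [Finset.filter_filter]
    have h3 : (univ : Finset V).powerset = univ := by ext; simp
    rw [h3]
    have h4 : univ.filter (fun S : Finset V => G.IsNClique k S) =
        univ.filter (fun S : Finset V => G.IsClique (S : Set V) ∧ S.card = k) := by
      ext S
      simp [SimpleGraph.isNClique_iff]
    rw [h4]
    simp
  rw [heval, hab z] at hz
  rcases mul_eq_zero.1 hz with h | h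
  · have h1 : 1 + z = 0 := (by by_contra hne; exact pow_ne_zero l hne h)
    have h2 : z = -1 := by linear_combination h1
    rw [h2]; simp
  · exact real_root a b z h

end Pool.Agent.Results.MP_77abd0_co.CliqueRoots
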